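import Mathlib
import Pool.Agent.H373R2.T7.Sys2

/-!
Primes among `n^2 + a` for the `n` of an ARBITRARY set `S` of integers, for almost all `a`, and
simultaneously for several shifts: for all but a proportion `1 / (log x)^U` of the vectors
`(a_1, ..., a_k)` of shifts of size about `x^2`, the number of the `n ∈ S`, `n ≤ x`, for which all
`n^2 + a_i` are prime is what one expects from the number of the `n ∈ S` for which no `n^2 + a_i` has a
prime factor `≤ z`, where `z` is a power of `log x`. More generally the primes `n^2 + a_i` can be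
replaced by this sieve model in sums with arbitrary bounded weights `G(n)`.
-/

set_option autoImplicit false

namespace Pool.Agent.Results.MP_391708_nt.ArbitraryArguments

open Finset

/-- the product of `1 - 1/p` over the primes `p ≤ z` -/
noncomputable def V (z : ℕ) : ℝ := ∏ p ∈ (Icc 1 z).filter Nat.Prime, (1 - 1 / (p : ℝ))

/-- `m` has no prime factor `≤ z` -/
def Rough (z m : ℕ) : Prop := ∀ p : ℕ, p.Prime → p ≤ z → ¬ p ∣ m

/-- all vectors `(a_1, ..., a_k)` of integers with `1 ≤ a_i ≤ A` -/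
def Box (k A : ℕ) : Finset (Fin k → ℕ) := Fintype.piFinset fun _ => Icc 1 A

open scoped Classical in
/-- the sum of `G(n) ∏ log (n^2 + a_i)` over the `1 ≤ n ≤ x` for which all `n^2 + a_i` are prime -/
noncomputable def primeSum {k : ℕ} (G : ℕ → ℝ) (a : Fin k → ℕ) (x : ℕ) : ℝ :=
  ∑ n ∈ (Icc 1 x).filter (fun n => ∀ i, (n ^ 2 + a i).Prime), G n * ∏ i, Real.log ((n ^ 2 + a i : ℕ) : ℝ)

open scoped Classical in
/-- the sieve model: the sum of `G(n) V(z)^(-k)` over the `1 ≤ n ≤ x` for which no `n^2 + a_i` has a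
prime factor `≤ z` -/
noncomputable def modelSum {k : ℕ} (G : ℕ → ℝ) (a : Fin k → ℕ) (z x : ℕ) : ℝ :=
  ∑ n ∈ (Icc 1 x).filter (fun n => ∀ i, Rough z (n ^ 2 + a i)), G n * (V z)⁻¹ ^ k

open scoped Classical in
/-- the number of the `n ∈ S`, `1 ≤ n ≤ x`, for which all `n^2 + a_i` are prime -/
noncomputable def primeCount {k : ℕ} (S : Set ℕ) (a : Fin k → ℕ) (x : ℕ) : ℕ :=
  ((Icc 1 x).filter (fun n => n ∈ S ∧ ∀ i, (n ^ 2 + a i).Prime)).card

open scoped Classical in
/-- the number of the `n ∈ S`, `1 ≤ n ≤ x`, for which no `n^2 + a_i` has a prime factor `≤ z` -/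
noncomputable def roughCount {k : ℕ} (S : Set ℕ) (a : Fin k → ℕ) (z x : ℕ) : ℕ :=
  ((Icc 1 x).filter (fun n => n ∈ S ∧ ∀ i, Rough z (n ^ 2 + a i))).card

open Polynomial Pool.Agent.H373R2.T7 in
lemma vl_eq {k : ℕ} (a : Fin k → ℕ) (i : Fin k) (n : ℕ) :
    vl (fun _ : Fin k => (X ^ 2 : ℤ[X])) (fun _ => 1) a i n = ((n ^ 2 + a i : ℕ) : ℤ) := by
  unfold vl
  simp
  ring

open Pool.Agent.H373R2.T7 in
lemma lamP_eq (m : ℕ) : lamP (m : ℤ) = if m.Prime then Real.log m else 0 := by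
  unfold lamP
  simp

open Pool.Agent.H373R2.T7 in
lemma lamzI_eq (z : ℕ) {m : ℕ} (hm : 1 ≤ m) [Decidable (Rough z m)] :
    lamzI z (m : ℤ) = if Rough z m then (V z)⁻¹ else 0 := by
  have h1 : (1 : ℤ) ≤ (m : ℤ) := by exact_mod_cast hm
  unfold lamzI
  rw [if_pos h1, Int.toNat_natCast]
  unfold lamz
  have h2 : (∀ p ∈ pz z, ¬ p ∣ m) ↔ Rough z m := by
    unfold Rough
    simp only [mem_pz]
    exact ⟨fun h p hp hz => h p ⟨hz, hp⟩, fun h p hp => h p hp.2 hp.1⟩
  by_cases h3 : Rough z m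
  · rw [if_pos (h2.2 h3), if_pos h3]
    rfl
  · rw [if_neg (fun h => h3 (h2.1 h)), if_neg h3]

lemma prod_ite {k : ℕ} (P : Fin k → Prop) [∀ i, Decidable (P i)] [Decidable (∀ i, P i)] (c : Fin k → ℝ) :
    (∏ i, if P i then c i else 0) = if ∀ i, P i then ∏ i, c i else 0 := by
  by_cases h : ∀ i, P i
  · rw [if_pos h]
    exact prod_congr rfl fun i _ => if_pos (h i)
  · rw [if_neg h]
    push Not at h
    obtain ⟨i, hi⟩ := h
    exact prod_eq_zero (mem_univ i) (if_neg hi)

open Polynomial Pool.Agent.H373R2.T7 in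
lemma diff_eq {k : ℕ} (G : ℕ → ℝ) (a : Fin k → ℕ) (ha : ∀ i, 1 ≤ a i) (z x : ℕ) :
    ∑ n ∈ Icc 1 x, G n * (∏ i, lamP (vl (fun _ : Fin k => (X ^ 2 : ℤ[X])) (fun _ => 1) a i n) -
      ∏ i, lamzI z (vl (fun _ : Fin k => (X ^ 2 : ℤ[X])) (fun _ => 1) a i n)) =
    primeSum G a x - modelSum G a z x := by
  classical
  unfold primeSum modelSum
  rw [sum_filter, sum_filter, ← sum_sub_distrib]
  refine sum_congr rfl fun n _ => ?_
  have h1 : ∏ i, lamP (vl (fun _ : Fin k => (X ^ 2 : ℤ[X])) (fun _ => 1) a i n) =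
      if ∀ i, (n ^ 2 + a i).Prime then ∏ i, Real.log ((n ^ 2 + a i : ℕ) : ℝ) else 0 := by
    rw [← prod_ite]
    refine prod_congr rfl fun i _ => ?_
    rw [vl_eq, lamP_eq]
  have h2 : ∏ i, lamzI z (vl (fun _ : Fin k => (X ^ 2 : ℤ[X])) (fun _ => 1) a i n) =
      if ∀ i, Rough z (n ^ 2 + a i) then (V z)⁻¹ ^ k else 0 := by
    have h3 : (V z)⁻¹ ^ k = ∏ _i : Fin k, (V z)⁻¹ := by simp
    rw [h3, ← prod_ite]
    refine prod_congr rfl fun i _ => ?_
    rw [vl_eq, lamzI_eq z (by have := ha i; omega)]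
  rw [h1, h2, mul_sub]
  congr 1
  · rw [mul_ite, mul_zero]
  · rw [mul_ite, mul_zero]

open scoped Classical in
open Polynomial Pool.Agent.H373R2.T7 in
/-- arbitrary bounded weights -/
theorem weights (k B U : ℕ) (hB : 1 ≤ B) : ∃ B₀ : ℕ, ∀ E : ℕ, ∃ x₀ : ℕ, ∀ x : ℕ, x₀ ≤ x →
    ∀ A : ℕ, A ≤ B * x ^ 2 → x ^ 2 ≤ B * A → ∀ z : ℕ, Real.log x ^ B₀ ≤ z → (z : ℝ) ≤ Real.log x ^ E →
    ∀ G : ℕ → ℝ, (∀ n, |G n| ≤ 1) →
      (((Box k A).filter (fun a => ¬ |primeSum G a x - modelSum G a z x| ≤ x / Real.log x ^ U)).card : ℝ) ≤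
        A ^ k / Real.log x ^ U := by
  obtain ⟨B₀, h⟩ := sys_diffP (fun _ : Fin k => (X ^ 2 : ℤ[X])) (fun _ => by simp) (fun _ => by simp)
    (fun _ => 1) (fun _ => Or.inl rfl) B hB (2 * U)
  refine ⟨B₀, fun E => ?_⟩
  obtain ⟨N0, hN0⟩ := h E
  refine ⟨max N0 3, fun x hx A hA1 hA2 z hz1 hz2 G hG => ?_⟩
  have hx3 : 3 ≤ x := (le_max_right _ _).trans hx
  have hx3r : (3 : ℝ) ≤ x := by exact_mod_cast hx3
  have hL1 : 1 ≤ Real.log x := by
    rw [Real.le_log_iff_exp_le (by linarith)]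
    have := Real.exp_one_lt_d9
    linarith
  have hL0 : 0 < Real.log x := by linarith
  have h1 := hN0 x ((le_max_left _ _).trans hx) (fun _ => A) (fun _ => by simpa using ⟨hA1, hA2⟩) z hz1 hz2 G
    (fun n _ => (hG n).trans hL1)
  have h2 : ∀ a ∈ Box k A, |∑ n ∈ Icc 1 x, G n * (∏ i, lamP (vl (fun _ : Fin k => (X ^ 2 : ℤ[X])) (fun _ => 1) a i n) -
      ∏ i, lamzI z (vl (fun _ : Fin k => (X ^ 2 : ℤ[X])) (fun _ => 1) a i n))| =
      |primeSum G a x - modelSum G a z x| := by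
    intro a ha
    rw [diff_eq G a (fun i => by
      unfold Box at ha
      have := (Fintype.mem_piFinset.1 ha) i
      exact (mem_Icc.1 this).1) z x]
  have h3 : ∑ a ∈ Box k A, |primeSum G a x - modelSum G a z x| ≤ x * (A : ℝ) ^ k / Real.log x ^ (2 * U) := by
    rw [← sum_congr rfl h2]
    refine h1.trans (le_of_eq ?_)
    simp
  set T := (Box k A).filter (fun a => ¬ |primeSum G a x - modelSum G a z x| ≤ x / Real.log x ^ U) with hT
  have h4 : (T.card : ℝ) * (x / Real.log x ^ U) ≤ ∑ a ∈ Box k A, |primeSum G a x - modelSum G a z x| := by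
    calc (T.card : ℝ) * (x / Real.log x ^ U) = ∑ a ∈ T, x / Real.log x ^ U := by
          rw [sum_const, nsmul_eq_mul]
      _ ≤ ∑ a ∈ T, |primeSum G a x - modelSum G a z x| := by
          refine sum_le_sum fun a ha => ?_
          rw [hT, mem_filter] at ha
          exact (not_le.1 ha.2).le
      _ ≤ _ := sum_le_sum_of_subset_of_nonneg (filter_subset _ _) fun _ _ _ => abs_nonneg _
  have hx0 : (0 : ℝ) < x := by linarith
  have hp : 0 < Real.log x ^ U := pow_pos hL0 U
  have h5 : (T.card : ℝ) * (x / Real.log x ^ U) ≤ (A : ℝ) ^ k / Real.log x ^ U * (x / Real.log x ^ U) := by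
    refine (h4.trans h3).trans (le_of_eq ?_)
    rw [two_mul, pow_add]
    field_simp
  exact le_of_mul_le_mul_right h5 (by positivity)

/-- the logarithms of the values -/
lemma bern {ε η : ℝ} {k : ℕ} (hε0 : 0 < ε) (hε1 : ε ≤ 1) (hη0 : 0 < η) (hη : k * η ≤ ε / 2) (hη1 : η ≤ 1) :
    1 ≤ (1 + ε) * (1 - η) ^ k ∧ (1 - ε) * (1 + η) ^ k ≤ 1 := by
  have h1 : 1 + (k : ℝ) * (-η) ≤ (1 + (-η)) ^ k := one_add_mul_le_pow (by linarith) k
  have h1' : 1 - ε / 2 ≤ (1 - η) ^ k := by
    have e : (1 + (-η)) ^ k = (1 - η) ^ k := by ring_nf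
    rw [e] at h1
    linarith
  have h2 : (1 + η) ^ k * (1 - η) ^ k ≤ 1 := by
    rw [← mul_pow]
    exact pow_le_one₀ (by nlinarith) (by nlinarith)
  have h3 : 0 ≤ (1 + η) ^ k := by positivity
  have h4 : (1 + η) ^ k * (1 - ε / 2) ≤ 1 := (mul_le_mul_of_nonneg_left h1' h3).trans h2
  constructor
  · nlinarith
  · have h5 : (1 - ε) ≤ (1 - ε / 2) := by linarith
    calc (1 - ε) * (1 + η) ^ k ≤ (1 - ε / 2) * (1 + η) ^ k := mul_le_mul_of_nonneg_right h5 h3
      _ ≤ 1 := by linarith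

lemma ev_facts (k B U : ℕ) (η ε : ℝ) (hη : 0 < η) : ∃ x₀ : ℕ, ∀ x : ℕ, x₀ ≤ x →
    1 ≤ Real.log x ∧ Real.log (B + 1) ≤ η * Real.log x ∧ (U + 1) * Real.log (Real.log x) ≤ η * Real.log x ∧
    Real.log B ≤ Real.log x ∧ 2 * (1 + ε) ≤ Real.log x ∧ 2 * k + 2 ≤ Real.log x := by
  have hl : Filter.Tendsto (fun x : ℕ => Real.log x) Filter.atTop Filter.atTop :=
    Real.tendsto_log_atTop.comp tendsto_natCast_atTop_atTop
  have h3 : ∀ᶠ y : ℝ in Filter.atTop, (U + 1) * Real.log y ≤ η * y := by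
    have := (Real.isLittleO_log_id_atTop.def (c := η / (U + 1)) (by positivity))
    filter_upwards [this, Filter.eventually_ge_atTop 1] with y hy hy1
    simp only [id, Real.norm_eq_abs] at hy
    rw [abs_of_nonneg (Real.log_nonneg hy1), abs_of_nonneg (by linarith)] at hy
    calc (U + 1) * Real.log y ≤ (U + 1) * (η / (U + 1) * y) := by
          apply mul_le_mul_of_nonneg_left hy (by positivity)
      _ = η * y := by field_simp
  have h2 : ∀ᶠ y : ℝ in Filter.atTop, Real.log (B + 1) ≤ η * y := by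
    filter_upwards [Filter.eventually_ge_atTop (Real.log (B + 1) / η)] with y hy
    rw [div_le_iff₀ hη] at hy
    linarith
  have h := (((((Filter.eventually_ge_atTop (1 : ℝ)).and h2).and h3).and
    (Filter.eventually_ge_atTop (Real.log B))).and (Filter.eventually_ge_atTop (2 * (1 + ε)))).and
    (Filter.eventually_ge_atTop (2 * (k : ℝ) + 2))
  obtain ⟨x₀, hx₀⟩ := Filter.eventually_atTop.1 (hl.eventually h)
  refine ⟨x₀, fun x hx => ?_⟩
  obtain ⟨⟨⟨⟨⟨a1, a2⟩, a3⟩, a4⟩, a5⟩, a6⟩ := hx₀ x hx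
  exact ⟨a1, a2, a3, a4, a5, a6⟩

open scoped Classical in
open Pool.Agent.H373R2.T7 in
/-- few vectors have a small coordinate -/
lemma few_small (k A : ℕ) (hA : 1 ≤ A) (y : ℝ) (hy : 0 < y) :
    (((Box k A).filter (fun a => ∃ i, (a i : ℝ) ≤ A / y)).card : ℝ) ≤ k * ((A : ℝ) ^ k / y) := by
  have h1 : (((Box k A).filter (fun a => ∃ i, (a i : ℝ) ≤ A / y)).card : ℝ) ≤
      ∑ i : Fin k, ∑ a ∈ Box k A, (if (a i : ℝ) ≤ A / y then (1 : ℝ) else 0) := by
    rw [sum_comm, card_filter]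
    push_cast
    refine sum_le_sum fun a _ => ?_
    split_ifs with h
    · obtain ⟨i, hi⟩ := h
      calc (1 : ℝ) = if (a i : ℝ) ≤ A / y then (1 : ℝ) else 0 := (if_pos hi).symm
        _ ≤ ∑ i : Fin k, if (a i : ℝ) ≤ A / y then (1 : ℝ) else 0 :=
          single_le_sum (f := fun i : Fin k => if (a i : ℝ) ≤ A / y then (1 : ℝ) else 0)
            (fun j _ => by split_ifs <;> norm_num) (mem_univ i)
    · exact sum_nonneg fun j _ => by split_ifs <;> norm_num
  have h2 : ∀ i : Fin k, ∑ a ∈ Box k A, (if (a i : ℝ) ≤ A / y then (1 : ℝ) else 0) ≤ 1 / y * (A : ℝ) ^ k := by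
    intro i
    have h3 := sum_coord (fun _ : Fin k => A) (fun _ => hA) i (fun v : ℕ => if (v : ℝ) ≤ A / y then (1 : ℝ) else 0)
      (1 / y) (by
        rw [← sum_filter, sum_const, nsmul_eq_mul, mul_one]
        have h4 : ((Icc 1 A).filter (fun v : ℕ => (v : ℝ) ≤ A / y)).card ≤ ⌊(A : ℝ) / y⌋₊ := by
          calc ((Icc 1 A).filter (fun v : ℕ => (v : ℝ) ≤ A / y)).card ≤ (Icc 1 ⌊(A : ℝ) / y⌋₊).card := by
                refine card_le_card fun v hv => ?_
                rw [mem_filter, mem_Icc] at hv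
                rw [mem_Icc]
                exact ⟨hv.1.1, Nat.le_floor hv.2⟩
            _ = ⌊(A : ℝ) / y⌋₊ := by simp
        have h5 : (((Icc 1 A).filter (fun v : ℕ => (v : ℝ) ≤ A / y)).card : ℝ) ≤ (⌊(A : ℝ) / y⌋₊ : ℝ) := by
          exact_mod_cast h4
        refine (h5.trans (Nat.floor_le (by positivity))).trans (le_of_eq ?_)
        ring)
    refine h3.trans (le_of_eq ?_)
    simp
  refine (h1.trans (sum_le_sum fun i _ => h2 i)).trans (le_of_eq ?_)
  rw [sum_const, nsmul_eq_mul, card_univ, Fintype.card_fin]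
  ring

open scoped Classical in
/-- arbitrary sets -/
theorem sets (k B U : ℕ) (hB : 1 ≤ B) (ε : ℝ) (hε0 : 0 < ε) (hε1 : ε ≤ 1) :
    ∃ B₀ : ℕ, ∀ E : ℕ, ∃ x₀ : ℕ, ∀ x : ℕ, x₀ ≤ x →
    ∀ A : ℕ, A ≤ B * x ^ 2 → x ^ 2 ≤ B * A → ∀ z : ℕ, Real.log x ^ B₀ ≤ z → (z : ℝ) ≤ Real.log x ^ E →
    ∀ S : Set ℕ,
      (((Box k A).filter (fun a => ¬ |primeCount S a x * Real.log A ^ k - roughCount S a z x * (V z)⁻¹ ^ k| ≤
        ε * (roughCount S a z x * (V z)⁻¹ ^ k) + x / Real.log x ^ U)).card : ℝ) ≤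
        A ^ k / Real.log x ^ U := by
  obtain ⟨η, hηd⟩ : ∃ η : ℝ, η = ε / (2 * (k + 1)) := ⟨_, rfl⟩
  have hη0 : 0 < η := by rw [hηd]; positivity
  have hηk : (k : ℝ) * η ≤ ε / 2 := by
    rw [hηd]
    calc (k : ℝ) * (ε / (2 * (k + 1))) = ε / 2 * (k / (k + 1)) := by field_simp
      _ ≤ ε / 2 * 1 := by
        apply mul_le_mul_of_nonneg_left _ (by positivity)
        rw [div_le_one (by positivity)]
        linarith
      _ = ε / 2 := mul_one _
  have hη1 : η ≤ 1 := by
    rw [hηd, div_le_one (by positivity)]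
    have : (0 : ℝ) ≤ k := Nat.cast_nonneg k
    linarith
  obtain ⟨hb1, hb2⟩ := bern hε0 hε1 hη0 hηk hη1
  obtain ⟨B₀, h⟩ := weights k B (U + 1) hB
  refine ⟨B₀, fun E => ?_⟩
  obtain ⟨x₁, hw⟩ := h E
  obtain ⟨x₂, hf⟩ := ev_facts k B U η ε hη0
  refine ⟨max (max x₁ x₂) 3, fun x hx A hA1 hA2 z hz1 hz2 S => ?_⟩
  have hx1 : x₁ ≤ x := (le_max_left _ _).trans ((le_max_left _ _).trans hx)
  have hx2 : x₂ ≤ x := (le_max_right _ _).trans ((le_max_left _ _).trans hx)
  have hx3 : 3 ≤ x := (le_max_right _ _).trans hx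
  have hx3r : (3 : ℝ) ≤ x := by exact_mod_cast hx3
  have hx0 : (0 : ℝ) < x := by linarith
  obtain ⟨f1, f2, f3, f4, f5, f6⟩ := hf x hx2
  have hL0 : 0 < Real.log x := by linarith
  have hA0 : 1 ≤ A := by
    rcases Nat.eq_zero_or_pos A with h0 | h0
    · rw [h0, mul_zero] at hA2
      have : 0 < x ^ 2 := by positivity
      omega
    · exact h0
  have hA0r : (1 : ℝ) ≤ A := by exact_mod_cast hA0
  have hBr : (1 : ℝ) ≤ B := by exact_mod_cast hB
  -- log A is at least log x
  have hlogA : Real.log x ≤ Real.log A := by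
    have h1 : Real.log ((x : ℝ) ^ 2) ≤ Real.log ((B : ℝ) * A) := by
      apply Real.log_le_log (by positivity)
      exact_mod_cast hA2
    rw [Real.log_pow, Real.log_mul (by positivity) (by positivity)] at h1
    push_cast at h1
    linarith
  have hlA0 : 0 < Real.log A := by linarith
  obtain ⟨G, hG⟩ : ∃ G : ℕ → ℝ, G = fun n => if n ∈ S then 1 else 0 := ⟨_, rfl⟩
  have hG1 : ∀ n, |G n| ≤ 1 := by
    intro n
    rw [hG]
    beta_reduce
    split_ifs <;> norm_num
  have hW := hw x hx1 A hA1 hA2 z hz1 hz2 G hG1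
  have hS := few_small k A hA0 (Real.log x ^ (U + 1)) (by positivity)
  -- the model
  have hmod : ∀ a : Fin k → ℕ, modelSum G a z x = roughCount S a z x * (V z)⁻¹ ^ k := by
    intro a
    unfold modelSum roughCount
    rw [← sum_mul]
    congr 1
    rw [hG]
    rw [← sum_filter, sum_const, nsmul_eq_mul, mul_one, filter_filter]
    congr 2
    refine filter_congr fun n _ => ?_
    tauto
  -- the primes
  have hpr : ∀ a : Fin k → ℕ, (∀ i, 1 ≤ a i) → (∀ i, a i ≤ A) → (∀ i, (A : ℝ) / Real.log x ^ (U + 1) < a i) →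
      (1 - η) ^ k * (primeCount S a x * Real.log A ^ k) ≤ primeSum G a x ∧
      primeSum G a x ≤ (1 + η) ^ k * (primeCount S a x * Real.log A ^ k) := by
    intro a ha1 ha2 ha3
    have hc : (primeCount S a x : ℝ) = ∑ n ∈ (Icc 1 x).filter (fun n => ∀ i, (n ^ 2 + a i).Prime), G n := by
      unfold primeCount
      rw [hG, ← sum_filter, sum_const, nsmul_eq_mul, mul_one, filter_filter]
      congr 2
      refine filter_congr fun n _ => ?_
      tauto
    have hG0 : ∀ n, 0 ≤ G n := by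
      intro n
      rw [hG]
      beta_reduce
      split_ifs <;> norm_num
    have hlog : ∀ n ∈ Icc 1 x, ∀ i, (1 - η) * Real.log A ≤ Real.log ((n ^ 2 + a i : ℕ) : ℝ) ∧
        Real.log ((n ^ 2 + a i : ℕ) : ℝ) ≤ (1 + η) * Real.log A := by
      intro n hn i
      rw [mem_Icc] at hn
      have hai : (0 : ℝ) < a i := by exact_mod_cast ha1 i
      constructor
      · have h1 : Real.log (A / Real.log x ^ (U + 1)) ≤ Real.log ((n ^ 2 + a i : ℕ) : ℝ) := by
          apply Real.log_le_log (by positivity)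
          push_cast
          have := ha3 i
          nlinarith [sq_nonneg (n : ℝ)]
        rw [Real.log_div (by positivity) (by positivity), Real.log_pow] at h1
        have h2 : ((U + 1 : ℕ) : ℝ) = (U : ℝ) + 1 := by push_cast; ring
        rw [h2] at h1
        have h3 : η * Real.log x ≤ η * Real.log A := mul_le_mul_of_nonneg_left hlogA hη0.le
        linarith
      · have h1 : Real.log ((n ^ 2 + a i : ℕ) : ℝ) ≤ Real.log (((B : ℝ) + 1) * A) := by
          apply Real.log_le_log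
          · have : 0 < n ^ 2 + a i := by have := ha1 i; omega
            exact_mod_cast this
          · have h2 : n ^ 2 + a i ≤ (B + 1) * A := by
              have h3 : n ^ 2 ≤ x ^ 2 := Nat.pow_le_pow_left hn.2 2
              have h4 := ha2 i
              nlinarith
            exact_mod_cast h2
        rw [Real.log_mul (by positivity) (by positivity)] at h1
        have h3 : η * Real.log x ≤ η * Real.log A := mul_le_mul_of_nonneg_left hlogA hη0.le
        linarith
    unfold primeSum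
    rw [hc]
    constructor
    · rw [sum_mul, mul_sum]
      refine sum_le_sum fun n hn => ?_
      have hn1 := (mem_filter.1 hn).1
      have h1 : ((1 - η) * Real.log A) ^ k ≤ ∏ i, Real.log ((n ^ 2 + a i : ℕ) : ℝ) := by
        calc ((1 - η) * Real.log A) ^ k = ∏ _i : Fin k, ((1 - η) * Real.log A) := by simp
          _ ≤ _ := prod_le_prod (fun i _ => mul_nonneg (by linarith) hlA0.le) fun i _ => (hlog n hn1 i).1
      calc (1 - η) ^ k * (G n * Real.log A ^ k) = G n * ((1 - η) * Real.log A) ^ k := by rw [mul_pow]; ring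
        _ ≤ _ := mul_le_mul_of_nonneg_left h1 (hG0 n)
    · rw [sum_mul, mul_sum]
      refine sum_le_sum fun n hn => ?_
      have hn1 := (mem_filter.1 hn).1
      have h1 : ∏ i, Real.log ((n ^ 2 + a i : ℕ) : ℝ) ≤ ((1 + η) * Real.log A) ^ k := by
        calc _ ≤ ∏ _i : Fin k, ((1 + η) * Real.log A) :=
              prod_le_prod (fun i _ => (mul_nonneg (by linarith) hlA0.le).trans (hlog n hn1 i).1)
                fun i _ => (hlog n hn1 i).2
          _ = _ := by simp
      calc _ ≤ G n * ((1 + η) * Real.log A) ^ k := mul_le_mul_of_nonneg_left h1 (hG0 n)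
        _ = (1 + η) ^ k * (G n * Real.log A ^ k) := by rw [mul_pow]; ring
  -- the exceptional set
  have hsub : (Box k A).filter (fun a => ¬ |primeCount S a x * Real.log A ^ k - roughCount S a z x * (V z)⁻¹ ^ k| ≤
        ε * (roughCount S a z x * (V z)⁻¹ ^ k) + x / Real.log x ^ U) ⊆
      (Box k A).filter (fun a => ¬ |primeSum G a x - modelSum G a z x| ≤ x / Real.log x ^ (U + 1)) ∪
      (Box k A).filter (fun a => ∃ i, (a i : ℝ) ≤ A / Real.log x ^ (U + 1)) := by
    intro a ha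
    obtain ⟨ha1, ha2⟩ := mem_filter.1 ha
    rw [mem_union]
    by_contra hcon
    push Not at hcon
    obtain ⟨hc1, hc2⟩ := hcon
    rw [mem_filter, not_and] at hc1
    rw [mem_filter, not_and] at hc2
    have hd1 : |primeSum G a x - modelSum G a z x| ≤ x / Real.log x ^ (U + 1) := by
      have := hc1 ha1
      push Not at this
      exact this
    have hd2 := hc2 ha1
    push Not at hd2
    apply ha2
    have ha3 := Fintype.mem_piFinset.1 ha1
    obtain ⟨e1, e2⟩ := hpr a (fun i => (mem_Icc.1 (ha3 i)).1) (fun i => (mem_Icc.1 (ha3 i)).2) hd2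
    rw [hmod a] at hd1
    set N : ℝ := primeCount S a x * Real.log A ^ k with hN
    set M : ℝ := roughCount S a z x * (V z)⁻¹ ^ k with hM
    have hN0 : 0 ≤ N := by rw [hN]; positivity
    have hV0 : 0 ≤ V z := by
      unfold V
      refine prod_nonneg fun p hp => ?_
      have hp2 : 2 ≤ p := (mem_filter.1 hp).2.two_le
      have : (1 : ℝ) / p ≤ 1 := by
        rw [div_le_one (by positivity)]
        exact_mod_cast (by omega : 1 ≤ p)
      linarith
    have hM0 : 0 ≤ M := by rw [hM]; positivity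
    obtain ⟨g1, g2⟩ := abs_le.1 hd1
    set e : ℝ := x / Real.log x ^ (U + 1) with he
    have he0 : 0 ≤ e := by rw [he]; positivity
    have he2 : 2 * e ≤ x / Real.log x ^ U := by
      rw [he, pow_succ, ← div_div, ← mul_div_assoc, div_le_iff₀ hL0, mul_comm]
      apply mul_le_mul_of_nonneg_left _ (by positivity)
      linarith
    rw [abs_le]
    constructor
    · -- N ≥ (1 - ε) (M - e)
      have h1 : (1 - ε) * (M - e) ≤ N := by
        rcases le_or_gt (M - e) 0 with h2 | h2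
        · have : (1 - ε) * (M - e) ≤ 0 := mul_nonpos_of_nonneg_of_nonpos (by linarith) h2
          linarith
        · calc (1 - ε) * (M - e) ≤ (1 - ε) * ((1 + η) ^ k * N) :=
                mul_le_mul_of_nonneg_left (by linarith) (by linarith)
            _ = ((1 - ε) * (1 + η) ^ k) * N := by ring
            _ ≤ 1 * N := mul_le_mul_of_nonneg_right hb2 hN0
            _ = N := one_mul N
      have h5 : (1 - ε) * (M - e) = M - e - ε * M + ε * e := by ring
      have h6 : 0 ≤ ε * e := mul_nonneg hε0.le he0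
      linarith
    · have h1 : N ≤ (1 + ε) * (M + e) := by
        calc N = 1 * N := (one_mul N).symm
          _ ≤ ((1 + ε) * (1 - η) ^ k) * N := mul_le_mul_of_nonneg_right hb1 hN0
          _ = (1 + ε) * ((1 - η) ^ k * N) := by ring
          _ ≤ (1 + ε) * (M + e) := mul_le_mul_of_nonneg_left (by linarith) (by linarith)
      have h5 : (1 + ε) * (M + e) = M + e + ε * M + ε * e := by ring
      have h6 : ε * e ≤ e := mul_le_of_le_one_left he0 hε1
      linarith
  have hcard : (((Box k A).filter (fun a => ¬ |primeCount S a x * Real.log A ^ k -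
        roughCount S a z x * (V z)⁻¹ ^ k| ≤
        ε * (roughCount S a z x * (V z)⁻¹ ^ k) + x / Real.log x ^ U)).card : ℝ) ≤
      (((Box k A).filter (fun a => ¬ |primeSum G a x - modelSum G a z x| ≤ x / Real.log x ^ (U + 1))).card : ℝ) +
      (((Box k A).filter (fun a => ∃ i, (a i : ℝ) ≤ A / Real.log x ^ (U + 1))).card : ℝ) := by
    exact_mod_cast (card_le_card hsub).trans (card_union_le _ _)
  refine hcard.trans ((add_le_add hW hS).trans ?_)
  rw [pow_succ, ← div_div]
  have hq : 0 ≤ (A : ℝ) ^ k / Real.log x ^ U := by positivity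
  have h1 : (A : ℝ) ^ k / Real.log x ^ U / Real.log x + k * ((A : ℝ) ^ k / Real.log x ^ U / Real.log x) =
      (A : ℝ) ^ k / Real.log x ^ U * ((1 + k) / Real.log x) := by
    field_simp
  rw [h1]
  have h2 : (1 + (k : ℝ)) / Real.log x ≤ 1 := by
    rw [div_le_one hL0]
    have : (0 : ℝ) ≤ k := Nat.cast_nonneg k
    linarith
  calc (A : ℝ) ^ k / Real.log x ^ U * ((1 + k) / Real.log x) ≤ (A : ℝ) ^ k / Real.log x ^ U * 1 :=
        mul_le_mul_of_nonneg_left h2 hq
    _ = _ := mul_one _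

open scoped Classical in
/-- **Primes `n^2 + a` with `n` in an arbitrary set, for almost all `a`.** Let `k ≥ 0`, `B ≥ 1`, `U`
and `0 < ε ≤ 1` be given. There is `B₀` such that for every `E` and all large `x` the following holds
for all `A` with `x^2 / B ≤ A ≤ B x^2` and all `z` with `(log x)^B₀ ≤ z ≤ (log x)^E`.

1. For every function `G` with `|G| ≤ 1`, for all but at most `A^k / (log x)^U` of the vectors
   `a = (a_1, ..., a_k)`, `1 ≤ a_i ≤ A`, the sum of `G(n) ∏ log (n^2 + a_i)` over the `n ≤ x` for which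
   all `n^2 + a_i` are prime differs from its sieve model by at most `x / (log x)^U`.
2. For every set `S` of integers, for all but at most `A^k / (log x)^U` of these vectors, the number of
   the `n ∈ S`, `n ≤ x`, for which all `n^2 + a_i` are prime, multiplied by `(log A)^k`, differs by at
   most `ε M + x / (log x)^U` from `M`, the number of the `n ∈ S`, `n ≤ x`, for which no `n^2 + a_i` has
   a prime factor `≤ z`, multiplied by `V(z)^(-k)`. -/
theorem result (k B U : ℕ) (hB : 1 ≤ B) (ε : ℝ) (hε0 : 0 < ε) (hε1 : ε ≤ 1) :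
    ∃ B₀ : ℕ, ∀ E : ℕ, ∃ x₀ : ℕ, ∀ x : ℕ, x₀ ≤ x →
    ∀ A : ℕ, A ≤ B * x ^ 2 → x ^ 2 ≤ B * A → ∀ z : ℕ, Real.log x ^ B₀ ≤ z → (z : ℝ) ≤ Real.log x ^ E →
    (∀ G : ℕ → ℝ, (∀ n, |G n| ≤ 1) →
      (((Box k A).filter (fun a => ¬ |primeSum G a x - modelSum G a z x| ≤ x / Real.log x ^ U)).card : ℝ) ≤
        A ^ k / Real.log x ^ U) ∧
    ∀ S : Set ℕ,
      (((Box k A).filter (fun a => ¬ |primeCount S a x * Real.log A ^ k - roughCount S a z x * (V z)⁻¹ ^ k| ≤
        ε * (roughCount S a z x * (V z)⁻¹ ^ k) + x / Real.log x ^ U)).card : ℝ) ≤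
        A ^ k / Real.log x ^ U := by
  obtain ⟨B₁, h1⟩ := weights k B U hB
  obtain ⟨B₂, h2⟩ := sets k B U hB ε hε0 hε1
  refine ⟨max B₁ B₂, fun E => ?_⟩
  obtain ⟨x₁, h1⟩ := h1 E
  obtain ⟨x₂, h2⟩ := h2 E
  refine ⟨max (max x₁ x₂) 3, fun x hx A hA1 hA2 z hz1 hz2 => ?_⟩
  have hx3 : 3 ≤ x := (le_max_right _ _).trans hx
  have hx3r : (3 : ℝ) ≤ x := by exact_mod_cast hx3
  have hL1 : 1 ≤ Real.log x := by
    rw [Real.le_log_iff_exp_le (by linarith)]
    have := Real.exp_one_lt_d9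
    linarith
  exact ⟨h1 x ((le_max_left _ _).trans ((le_max_left _ _).trans hx)) A hA1 hA2 z
    ((pow_le_pow_right₀ hL1 (le_max_left _ _)).trans hz1) hz2,
    h2 x ((le_max_right _ _).trans ((le_max_left _ _).trans hx)) A hA1 hA2 z
    ((pow_le_pow_right₀ hL1 (le_max_right _ _)).trans hz1) hz2⟩

end Pool.Agent.Results.MP_391708_nt.ArbitraryArguments
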