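import Pool.Agent.TH882.K4

/-!
For all vectors `(a_1, ..., a_r)` of positive integers `a_j ≤ K x ^ 2` without local obstruction,
except a proportion at most `κ`, the polynomials `n ^ 2 + a_j` are simultaneously prime for at least
`c x / (log x) ^ (r + 1)` primes `n ≤ x` which have no other prime at distance at most `L log x`.
-/

set_option autoImplicit false

open Finset Filter Topology

namespace Pool.Agent.Results.MP_391708_nt.IsolatedPrimeArguments

/-- The only prime at distance at most `R` from `p` is `p` itself (if it is one). -/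
def Isolated (R : ℝ) (p : ℕ) : Prop := ∀ q : ℕ, q.Prime → |(q : ℝ) - p| ≤ R → q = p

/-- For every prime `l` there is an integer `n` such that `l` divides none of the numbers `n` and
`n ^ 2 + a_j`. -/
def Admissible {r : ℕ} (a : Fin r → ℕ) : Prop :=
  ∀ l : ℕ, l.Prime → ∃ n : ℤ, ¬ (l : ℤ) ∣ n * ∏ j, (n ^ 2 + a j)

open Classical in
/-- The primes `n ≤ x` without other primes at distance at most `L * log x` for which all
`n ^ 2 + a_j` are prime. -/
noncomputable def arguments {r : ℕ} (L : ℝ) (a : Fin r → ℕ) (x : ℕ) : Finset ℕ :=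
  (Icc 1 x).filter (fun n => n.Prime ∧ Isolated (L * Real.log x) n ∧ ∀ j, (n ^ 2 + a j).Prime)

open Classical in
/-- The vectors without local obstruction and with few arguments. -/
noncomputable def exceptions (r : ℕ) (L c : ℝ) (K x : ℕ) : Finset (Fin r → ℕ) :=
  (Fintype.piFinset (fun _ : Fin r => Icc 1 (K * x ^ 2))).filter (fun a => Admissible a ∧
    ((arguments L a x).card : ℝ) < c * (x / Real.log x ^ (r + 1)))

theorem result (r : ℕ) (L : ℝ) (K : ℕ) (κ : ℝ) (hκ : 0 < κ) :
    (∃ c : ℝ, 0 < c ∧ ∃ x₀ : ℕ, ∀ x : ℕ, x₀ ≤ x →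
      ((exceptions r L c K x).card : ℝ) ≤ κ * ((x : ℝ) ^ 2) ^ r) ∧
    ∀ a : ℕ, Admissible (fun _ : Fin 1 => a) ↔ a % 6 = 0 ∨ a % 6 = 4 := by
  classical
  constructor
  · set Λ : ℝ := 2 * max L 1 with hΛ
    have hΛ0 : 0 < Λ := by
      have : (1 : ℝ) ≤ max L 1 := le_max_right _ _
      linarith
    have hA : Pool.Agent.TH882.JS.MostDense (Pool.Agent.TH882.IS.IP Λ) := by
      constructor
      · intro X b n hn
        unfold Pool.Agent.TH882.IS.IP at hn
        rw [mem_filter] at hn ⊢
        exact ⟨hn.1, hn.2.1⟩
      · intro η hη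
        obtain ⟨c, hc, X₀, h⟩ := Pool.Agent.TH882.IS.isoD Λ hΛ0
        refine ⟨c, hc, X₀, fun X hX => ?_⟩
        have h1 : (Pool.Agent.TH882.JS.Rd X).filter (fun b =>
            ((Pool.Agent.TH882.IS.IP Λ X b).card : ℝ) <
              c * (X / (Nat.totient (Pool.Agent.H361R2.PP.Wm X) * Real.log X))) = ∅ := by
          rw [filter_eq_empty_iff]
          intro b hb
          unfold Pool.Agent.TH882.JS.Rd at hb
          rw [mem_filter, mem_range] at hb
          exact not_lt.2 (h X hX b hb.1 hb.2)
        rw [h1, card_empty, Nat.cast_zero]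
        positivity
    obtain ⟨c, hc, x₀, h⟩ := Pool.Agent.TH882.KS.sys_most
      (fun _ : Fin r => (Polynomial.X ^ 2 : Polynomial ℤ)) (fun _ => by simp) (fun _ => by simp)
      (Pool.Agent.TH882.IS.IP Λ) hA K κ hκ
    refine ⟨c, hc, max x₀ 100, fun x hx => ?_⟩
    have hx0 : x₀ ≤ x := by omega
    have hx100 : 100 ≤ x := by omega
    have h1 := h x hx0
    simp only [Polynomial.natDegree_X_pow, Polynomial.eval_pow, Polynomial.eval_X, prod_const,
      card_univ, Fintype.card_fin] at h1
    refine le_trans ?_ h1
    apply Nat.cast_le.2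
    apply card_le_card
    intro a ha
    unfold exceptions at ha
    rw [mem_filter] at ha ⊢
    obtain ⟨ha1, ha2, ha3⟩ := ha
    refine ⟨ha1, ?_, lt_of_le_of_lt ?_ ha3⟩
    · intro l hl
      obtain ⟨n, hn⟩ := ha2 l hl
      refine ⟨n, fun h => hn (h.mul_right _), fun j h => hn ?_⟩
      simp only [one_mul, Polynomial.eval_pow, Polynomial.eval_X] at h
      rw [add_comm] at h
      exact (h.trans (dvd_prod_of_mem (fun j => n ^ 2 + (a j : ℤ)) (mem_univ j))).mul_left _
    · apply Nat.cast_le.2
      apply card_le_card
      intro n hn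
      unfold Pool.Agent.TH882.KS.SysA at hn
      rw [mem_filter, mem_Ico] at hn
      obtain ⟨⟨hn1, hn2⟩, hn3, hn4⟩ := hn
      unfold Pool.Agent.TH882.IS.IP at hn3
      rw [mem_filter] at hn3
      unfold arguments
      rw [mem_filter, mem_Icc]
      refine ⟨⟨by omega, by omega⟩, hn3.2.1, ?_, ?_⟩
      · intro q hq hqn
        have e1 := abs_le.1 hqn
        have hX0 : (0 : ℝ) < (x / 3 : ℕ) := by
          have : 0 < x / 3 := by omega
          exact_mod_cast this
        have hxX : (x : ℝ) ≤ ((x / 3 : ℕ) : ℝ) ^ 2 := by
          have e2 : x ≤ (x / 3) ^ 2 := by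
            have e3 : x ≤ 4 * (x / 3) := by omega
            have e4 : 4 ≤ x / 3 := by omega
            nlinarith
          exact_mod_cast e2
        have hlog : Real.log x ≤ 2 * Real.log (x / 3 : ℕ) := by
          have e5 := Real.log_le_log (by
            have : 0 < x := by omega
            exact_mod_cast this) hxX
          rw [Real.log_pow] at e5
          exact_mod_cast e5
        have hlog0 : 0 ≤ Real.log (x : ℝ) := Real.log_natCast_nonneg x
        have e6 : L * Real.log x ≤ Λ * Real.log (x / 3 : ℕ) := by
          have e7 : L * Real.log x ≤ max L 1 * Real.log x :=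
            mul_le_mul_of_nonneg_right (le_max_left _ _) hlog0
          have e8 : max L 1 * Real.log x ≤ max L 1 * (2 * Real.log (x / 3 : ℕ)) :=
            mul_le_mul_of_nonneg_left hlog (by positivity)
          rw [hΛ]
          linarith
        exact hn3.2.2 q hq (by linarith) (by linarith)
      · intro j
        have e1 := hn4 j
        simp only [Polynomial.eval_pow, Polynomial.eval_X] at e1
        have e2 : ((a j : ℤ) + (n : ℤ) ^ 2).toNat = n ^ 2 + a j := by
          have : (a j : ℤ) + (n : ℤ) ^ 2 = ((n ^ 2 + a j : ℕ) : ℤ) := by push_cast; ring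
          rw [this, Int.toNat_natCast]
        rwa [e2] at e1
  · intro a
    constructor
    · intro h
      have h2 : a % 2 = 0 := by
        by_contra hcon
        obtain ⟨n, hn⟩ := h 2 Nat.prime_two
        apply hn
        rw [Fin.prod_univ_one]
        rcases Int.even_or_odd n with he | ho
        · exact (even_iff_two_dvd.1 he).mul_right _
        · apply Dvd.dvd.mul_left
          have h3 : Odd (n ^ 2) := ho.pow
          have h4 : Odd (a : ℤ) := by
            rw [Int.odd_iff]
            omega
          exact even_iff_two_dvd.1 (h3.add_odd h4)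
      have h3 : a % 3 ≠ 2 := by
        intro hcon
        obtain ⟨n, hn⟩ := h 3 Nat.prime_three
        apply hn
        rw [Fin.prod_univ_one]
        have h4 : n % 3 = 0 ∨ n % 3 = 1 ∨ n % 3 = 2 := by omega
        have h5 : (a : ℤ) % 3 = 2 := by omega
        push_cast
        rcases h4 with h4 | h4 | h4
        · exact (Int.dvd_of_emod_eq_zero h4).mul_right _
        · apply Dvd.dvd.mul_left
          apply Int.dvd_of_emod_eq_zero
          rw [Int.add_emod, pow_two, Int.mul_emod, h4, h5]
          norm_num
        · apply Dvd.dvd.mul_left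
          apply Int.dvd_of_emod_eq_zero
          rw [Int.add_emod, pow_two, Int.mul_emod, h4, h5]
          norm_num
      omega
    · intro h l hl
      have h2 : a % 2 = 0 := by omega
      have h3 : a % 3 ≠ 2 := by omega
      rcases Nat.lt_or_ge l 4 with h4 | h4
      · have hl2 := hl.two_le
        have h5 : l = 2 ∨ l = 3 := by omega
        refine ⟨1, ?_⟩
        rw [Fin.prod_univ_one, one_mul, one_pow]
        rcases h5 with rfl | rfl
        · intro hd
          have : (1 + (a : ℤ)) % 2 = 0 := Int.emod_eq_zero_of_dvd (by exact_mod_cast hd)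
          omega
        · intro hd
          have : (1 + (a : ℤ)) % 3 = 0 := Int.emod_eq_zero_of_dvd (by exact_mod_cast hd)
          omega
      · have hl4 : l ≠ 4 := by
          rintro rfl
          exact absurd hl (by norm_num)
        have h5 := Pool.Agent.TH882.KS.rl_low (fun _ : Fin 1 => (1 : ℤ)) (fun _ => Or.inl rfl)
          (fun _ : Fin 1 => (Polynomial.X ^ 2 : Polynomial ℤ)) (fun _ => by simp) l hl
          (fun _ => by
            simp only [Polynomial.leadingCoeff_X_pow]
            intro hd
            have := Int.le_of_dvd one_pos hd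
            omega) (fun _ => a)
        simp only [Polynomial.natDegree_X_pow, sum_const, card_univ, Fintype.card_fin, one_smul]
          at h5
        have h6 : 0 < Pool.Agent.TH882.KS.rl (fun _ : Fin 1 => (1 : ℤ))
          (fun _ : Fin 1 => (Polynomial.X ^ 2 : Polynomial ℤ)) l (fun _ => a) := by omega
        unfold Pool.Agent.TH882.KS.rl at h6
        obtain ⟨b, hb⟩ := card_pos.1 h6
        rw [mem_filter, mem_range] at hb
        obtain ⟨hb1, hb2, hb3⟩ := hb
        refine ⟨(b : ℤ), ?_⟩
        rw [Fin.prod_univ_one]
        intro hd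
        have hlp : Prime (l : ℤ) := Nat.prime_iff_prime_int.1 hl
        rcases hlp.dvd_or_dvd hd with h7 | h7
        · have h8 : l ∣ b := by exact_mod_cast h7
          exact absurd (Nat.le_of_dvd (Nat.pos_of_ne_zero hb2) h8) (by omega)
        · apply hb3 0
          simp only [one_mul, Polynomial.eval_pow, Polynomial.eval_X]
          rw [add_comm]
          exact h7

end Pool.Agent.Results.MP_391708_nt.IsolatedPrimeArguments
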