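import Pool.Agent.TH892.OW.B10

/-!
Primes `|n² + a|` near the square root of `-a`, on the scale `log X`, which is the true one: for all
but `ε X` of the integers `-X ≤ a ≤ -1` there are no primes `|n² + a|` with
`|n - √(-a)| ≤ c log X`, and the Hardy-Littlewood asymptotic formula holds, with the true constant
`h_a` and relative error `ε`, in ALL windows `(m, N]` of length at least `T log X` whose distance
from `√(-a)` is at most `κ` times their length.

Method: write `-a = s² + r` with `0 ≤ r ≤ 2 s`. The values near the square root are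
`2 s i + i² - r`, and for `i < j` the `j`-th is the `i`-th plus `(j - i) (2 s + i + j)`. So the
off-diagonal terms of the second moment over ALL pairs `(s, r)` are sums over arithmetic
progressions of the function; they are negligible for the primes minus their sieve model, and by
the fundamental lemma for the difference of two sieve models. Only the diagonal is left, and it is
small compared with the square of the main term as soon as the window is longer than `T log X`.
-/

set_option autoImplicit false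

namespace Pool.Agent.Results.MP_391708_nt.OptimalWindows

open Finset Filter Topology

/-- the product over the odd primes `w ≤ z` of `1 - (-a | w) / (w - 1)` -/
noncomputable def hcut (a : ℤ) (z : ℕ) : ℝ :=
  ∏ w ∈ (Finset.range (z + 1)).filter (fun w => Nat.Prime w ∧ w ≠ 2),
    (1 - (jacobiSym (-a) w : ℝ) / ((w : ℝ) - 1))

/-- the number of `n` with `m < n ≤ N` such that `|n² + a|` is a prime -/
def P (a : ℤ) (m N : ℕ) : ℕ := #((Ioc m N).filter (fun n : ℕ => Nat.Prime ((n : ℤ) ^ 2 + a).natAbs))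

/-- the sum of `1 / log |n² + a|` over `m < n ≤ N` -/
noncomputable def M (a : ℤ) (m N : ℕ) : ℝ := ∑ n ∈ Ioc m N, 1 / Real.log (|(n : ℤ) ^ 2 + a| : ℤ)

/-- **Primes `|n² + a|` near the square root of `-a`: the optimal scale.** For all `κ, ε > 0` and
all `C` there are `c, T > 0` and `X₀` such that for `X ≥ X₀` all but at most `ε X` of the integers
`-X ≤ a ≤ -1` have the following properties: `-a` is not a square, `|n² + a| ≥ 2` for all `n`;
* `|n² + a|` is not a prime for any `n` with `|n - √(-a)| ≤ c log X`;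
* the product `h_a` converges to a number `h > 0`, and for ALL `m < N ≤ √X (log X)^C` with
  `|m - √(-a)| ≤ κ (N - m)` and `N - m ≥ T log X` the number of primes `|n² + a|` with `m < n ≤ N`
  is `h ∑_{m < n ≤ N} 1 / log |n² + a|` up to a relative error `ε`. -/
theorem result : ∀ (κ ε : ℝ) (C : ℕ), 0 < κ → 0 < ε → ∃ c T : ℝ, 0 < c ∧ 0 < T ∧ ∃ X₀ : ℕ, ∀ X : ℕ, X₀ ≤ X →
    ∃ Bad ⊆ Icc (-(X : ℤ)) (-1), (#Bad : ℝ) ≤ ε * X ∧
    ∀ a ∈ Icc (-(X : ℤ)) (-1), a ∉ Bad →
      ¬ IsSquare (-a) ∧ (∀ n : ℕ, 2 ≤ |(n : ℤ) ^ 2 + a|) ∧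
      (∀ n : ℕ, |(n : ℝ) - √(-(a : ℝ))| ≤ c * Real.log X → ¬ Nat.Prime ((n : ℤ) ^ 2 + a).natAbs) ∧
      ∃ h : ℝ, 0 < h ∧ Tendsto (fun z : ℕ => hcut a z) atTop (𝓝 h) ∧
      ∀ m N : ℕ, m < N → (N : ℝ) ≤ √X * Real.log X ^ C →
        |(m : ℝ) - √(-(a : ℝ))| ≤ κ * ((N : ℝ) - m) →
        T * Real.log X ≤ (N : ℝ) - m →
        |(P a m N : ℝ) - h * M a m N| ≤ ε * (h * M a m N) := by
  classical
  intro κ ε C hκ hε
  obtain ⟨B, X1, h1⟩ := Pool.Agent.TH892.SW.both 1 (C + 1) ε hε
  obtain ⟨T, hT, X2, h2⟩ := Pool.Agent.TH892.OW.core2 κ (min ε (ε / 4)) hκ (by positivity) (max B 1) (le_max_right _ _)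
  obtain ⟨c, hc, X3, h3⟩ := Pool.Agent.TH892.OW.no_primes (ε / 4) (by positivity)
  obtain ⟨X4, h4⟩ := eventually_atTop.1 ((Pool.Agent.H442R2.EHI.evt_log_ge (max (4 / ε) (κ + 1))))
  refine ⟨c, T, hc, hT, max (max X1 X2) (max X3 X4), fun X hX => ?_⟩
  obtain ⟨B1, hB10, hB11, hB12⟩ := h1 X (le_trans (le_trans (le_max_left _ _) (le_max_left _ _)) hX)
  obtain ⟨B2, hB21, hB22⟩ := h2 X (le_trans (le_trans (le_max_right _ _) (le_max_left _ _)) hX)
  obtain ⟨B3, hB31, hB32⟩ := h3 X (le_trans (le_trans (le_max_left _ _) (le_max_right _ _)) hX)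
  have hl := h4 X (le_trans (le_trans (le_max_right _ _) (le_max_right _ _)) hX)
  clear h1 h2 h3 h4 hX
  have hlε : 4 / ε ≤ Real.log X := (le_max_left _ _).trans hl
  have hlκ : κ + 1 ≤ Real.log X := (le_max_right _ _).trans hl
  have hl0 : 0 < Real.log X := by linarith
  have hl1 : 1 ≤ Real.log X := by linarith
  have hmin : min ε (ε / 4) ≤ ε / 4 := min_le_right _ _
  have hmin2 : min ε (ε / 4) ≤ ε := min_le_left _ _
  obtain ⟨Bd, hBd⟩ : ∃ Bd, Bd = (Icc 1 X).filter (fun K => K ∈ B1 ∪ B2 ∪ B3) := ⟨_, rfl⟩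
  have hBdc : (#Bd : ℝ) ≤ ε * X := by
    have a1 : Bd ⊆ B1 ∪ B2 ∪ B3 := by
      rw [hBd]; intro K hK; exact (mem_filter.1 hK).2
    have a2 := card_le_card a1
    have a3 := card_union_le (B1 ∪ B2) B3
    have a4 := card_union_le B1 B2
    have a5 : (#Bd : ℝ) ≤ #B1 + #B2 + #B3 := by exact_mod_cast (by omega : #Bd ≤ #B1 + #B2 + #B3)
    have a6 : (X : ℝ) / Real.log X ^ 1 ≤ ε / 4 * X := by
      rw [pow_one, div_le_iff₀ hl0]
      rw [div_le_iff₀ hε] at hlε
      have : (0 : ℝ) ≤ X := Nat.cast_nonneg _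
      nlinarith
    have a7 : min ε (ε / 4) * X ≤ ε / 4 * X := mul_le_mul_of_nonneg_right hmin (Nat.cast_nonneg _)
    have a8 : 0 ≤ ε * (X : ℝ) := by positivity
    linarith
  refine ⟨Bd.image (fun K : ℕ => -(K : ℤ)), ?_, ?_, ?_⟩
  · intro a ha
    rw [mem_image] at ha
    obtain ⟨K, hK, rfl⟩ := ha
    rw [hBd, mem_filter, mem_Icc] at hK
    rw [mem_Icc]
    constructor <;> omega
  · refine le_trans ?_ hBdc
    exact_mod_cast card_image_le
  · intro a ha haB
    rw [mem_Icc] at ha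
    obtain ⟨K, rfl⟩ : ∃ K : ℕ, a = -(K : ℤ) := ⟨a.natAbs, by omega⟩
    have hK : K ∈ Icc 1 X := by rw [mem_Icc]; omega
    have hKB : K ∉ B1 ∪ B2 ∪ B3 := by
      intro hc'
      apply haB
      rw [mem_image]
      exact ⟨K, by rw [hBd, mem_filter]; exact ⟨hK, hc'⟩, rfl⟩
    rw [mem_union, mem_union, not_or, not_or] at hKB
    obtain ⟨⟨k1, k2⟩, k3⟩ := hKB
    obtain ⟨hvn, h, hh, hlim, hwin⟩ := hB12 K hK k1
    have hwin2 := hB22 K hK k2 hvn h hh hlim
    have hnop := hB32 K hK k3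
    have hv : ∀ n : ℕ, ((n : ℤ) ^ 2 + -(K : ℤ)).natAbs = Pool.Agent.TH892.SW.vn K n := by
      intro n
      unfold Pool.Agent.TH892.SW.vn
      rw [← sub_eq_add_neg]
    have habs : ∀ n : ℕ, |(n : ℤ) ^ 2 + -(K : ℤ)| = (Pool.Agent.TH892.SW.vn K n : ℤ) := by
      intro n
      rw [← hv n, Int.abs_eq_natAbs]
    have hP : ∀ m N : ℕ, P (-(K : ℤ)) m N = ((Ioc m N).filter (fun i => (Pool.Agent.TH892.SW.vn K i).Prime)).card := by
      intro m N
      unfold P
      simp_rw [hv]
    have hM : ∀ m N : ℕ, M (-(K : ℤ)) m N = ∑ i ∈ Ioc m N, Pool.Agent.TH892.SW.wt (Pool.Agent.TH892.SW.vn K i) := by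
      intro m N
      unfold M Pool.Agent.TH892.SW.wt
      simp_rw [habs]
      simp only [Int.cast_natCast]
    have hsq : √(-((-(K : ℤ) : ℤ) : ℝ)) = √(K : ℝ) := by
      congr 1
      push_cast
      ring
    refine ⟨?_, ?_, ?_, h, hh, ?_, ?_⟩
    · rintro ⟨r, hr⟩
      have h1 := hvn r.natAbs
      have h2 : Pool.Agent.TH892.SW.vn K r.natAbs = 0 := by
        rw [← hv]
        have h3 : (r.natAbs : ℤ) ^ 2 = (K : ℤ) := by
          rw [Int.natAbs_sq, sq, ← hr, neg_neg]
        rw [h3, add_neg_cancel]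
        rfl
      omega
    · intro n
      rw [habs]
      exact_mod_cast hvn n
    · intro n hn
      rw [hsq] at hn
      rw [hv]
      exact hnop n hn
    · have e : (fun z : ℕ => hcut (-(K : ℤ)) z) = fun z => Pool.Agent.TH892.SW.HP K z := by
        funext z
        unfold hcut Pool.Agent.TH892.SW.HP
        rw [neg_neg]
      rw [e]
      exact hlim
    · intro m N hmN hN hmK hTH
      rw [hsq] at hmK
      rw [hP, hM]
      have hH0 : (0 : ℝ) < (N : ℝ) - m := by rw [sub_pos]; exact_mod_cast hmN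
      rcases le_total ((N : ℝ) - m) (Real.log X ^ (max B 1)) with hH | hH
      · have h5 := hwin2 m N hmN hH hmK hTH
        refine h5.trans ?_
        apply mul_le_mul_of_nonneg_right hmin2
        apply mul_nonneg hh.le
        exact sum_nonneg fun i _ => Pool.Agent.TH892.SW.wt_nonneg _
      · have hN' : (N : ℝ) ≤ √X * Real.log X ^ (C + 1) := by
          refine hN.trans ?_
          apply mul_le_mul_of_nonneg_left _ (Real.sqrt_nonneg _)
          exact pow_le_pow_right₀ hl1 (by omega)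
        have hmK' : |(m : ℝ) - √(K : ℝ)| ≤ ((N : ℝ) - m) * Real.log X ^ (C + 1) := by
          refine hmK.trans ?_
          rw [mul_comm]
          apply mul_le_mul_of_nonneg_left _ hH0.le
          have h6 : Real.log X ≤ Real.log X ^ (C + 1) := le_self_pow₀ hl1 (by omega)
          linarith
        have h5 := (hwin m N hmN hN' hmK').1 ((pow_le_pow_right₀ hl1 (le_max_left _ _)).trans hH)
        exact h5

end Pool.Agent.Results.MP_391708_nt.OptimalWindows
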