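import Pool.Agent.TH892.SW.S11

/-!
For all but `X / (log X)^U` of the integers `a` with `-X ≤ a ≤ -1` the Hardy-Littlewood asymptotic
formula for the primes `|n² + a|` holds, with the true constant `h_a`, in every window `(m, N]`
around `√(-a)` of length at least `(log X)^B`, and in all windows whose distance from `√(-a)` is at
most their length times `(log X)^C`.

Method: for a function `f` on `[1, Y]` the second moment over all integers `a` of
`∑_n f(±(n² + a))` is a sum of autocorrelations of `f` at the differences `n'² - n²`. The number of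
representations by differences of two squares is at most the number of divisors, so that the
second moment is controlled by the fourth power mean of the exponential sum of `f`, without any
Gauss sum. Primes minus their sieve model have exponential sums at most `Y / (log Y)^A` everywhere
(`Pool/Agent/H373R2/T7`). This works from `Y = √X (log X)^B` on, which corresponds to windows of
length `(log X)^B` at the square root. The model is summed by the fundamental lemma.
-/

set_option autoImplicit false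

namespace Pool.Agent.Results.MP_391708_nt.WindowsNearSquareRoot

open Finset Filter Topology

/-- the product over the odd primes `w ≤ z` of `1 - (-a | w) / (w - 1)` -/
noncomputable def hcut (a : ℤ) (z : ℕ) : ℝ :=
  ∏ w ∈ (Finset.range (z + 1)).filter (fun w => Nat.Prime w ∧ w ≠ 2),
    (1 - (jacobiSym (-a) w : ℝ) / ((w : ℝ) - 1))

/-- the number of `n` with `m < n ≤ N` such that `|n² + a|` is a prime -/
def P (a : ℤ) (m N : ℕ) : ℕ := #((Ioc m N).filter (fun n : ℕ => Nat.Prime ((n : ℤ) ^ 2 + a).natAbs))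

/-- the sum of `1 / log |n² + a|` over `m < n ≤ N` -/
noncomputable def M (a : ℤ) (m N : ℕ) : ℝ := ∑ n ∈ Ioc m N, 1 / Real.log (|(n : ℤ) ^ 2 + a| : ℤ)

/-- **Primes `|n² + a|` near the square root of `-a`.** For all `U`, `C` and `ε > 0` there are `B`
and `X₀` such that for `X ≥ X₀` all but at most `X / (log X)^U` of the integers `-X ≤ a ≤ -1` have
the following properties: `-a` is not a square, `|n² + a| ≥ 2` for all `n`, the product `h_a`
converges to a number `h > 0`, and for ALL `m < N ≤ √X (log X)^C` with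
`|m - √(-a)| ≤ (N - m) (log X)^C`: the number of primes `|n² + a|` with `m < n ≤ N` is
`h ∑_{m < n ≤ N} 1 / log |n² + a|` up to a relative error
* `ε`, if `N - m ≥ (log X)^B`;
* `(log X)^(-U)`, if `N - m ≥ exp(B (log log X)²)`. -/
theorem result : ∀ (U C : ℕ) (ε : ℝ), 0 < ε → ∃ B X₀ : ℕ, ∀ X : ℕ, X₀ ≤ X →
    ∃ Bad ⊆ Icc (-(X : ℤ)) (-1), (#Bad : ℝ) ≤ X / Real.log X ^ U ∧
    ∀ a ∈ Icc (-(X : ℤ)) (-1), a ∉ Bad →
      ¬ IsSquare (-a) ∧ (∀ n : ℕ, 2 ≤ |(n : ℤ) ^ 2 + a|) ∧
      ∃ h : ℝ, 0 < h ∧ Tendsto (fun z : ℕ => hcut a z) atTop (𝓝 h) ∧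
      ∀ m N : ℕ, m < N → (N : ℝ) ≤ √X * Real.log X ^ C →
        |(m : ℝ) - √(-(a : ℝ))| ≤ ((N : ℝ) - m) * Real.log X ^ C →
        (Real.log X ^ B ≤ (N : ℝ) - m →
          |(P a m N : ℝ) - h * M a m N| ≤ ε * (h * M a m N)) ∧
        (Real.exp (B * Real.log (Real.log X) ^ 2) ≤ (N : ℝ) - m →
          |(P a m N : ℝ) - h * M a m N| ≤ (h * M a m N) / Real.log X ^ U) := by
  intro U C ε hε
  obtain ⟨B, X₀, h0⟩ := Pool.Agent.TH892.SW.both U C ε hε
  refine ⟨B, X₀, fun X hX => ?_⟩
  obtain ⟨Bad, hB1, hB2, hB3⟩ := h0 X hX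
  refine ⟨Bad.image (fun K : ℕ => -(K : ℤ)), ?_, ?_, ?_⟩
  · intro a ha
    rw [mem_image] at ha
    obtain ⟨K, hK, rfl⟩ := ha
    have h1 := mem_Icc.1 (hB1 hK)
    rw [mem_Icc]
    constructor <;> omega
  · refine le_trans ?_ hB2
    exact_mod_cast card_image_le
  · intro a ha haB
    rw [mem_Icc] at ha
    obtain ⟨K, rfl⟩ : ∃ K : ℕ, a = -(K : ℤ) := ⟨a.natAbs, by omega⟩
    have hK : K ∈ Icc 1 X := by rw [mem_Icc]; omega
    obtain ⟨hvn, h, hh, hlim, hwin⟩ := hB3 K hK (fun hc => haB (mem_image.2 ⟨K, hc, rfl⟩))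
    have hv : ∀ n : ℕ, ((n : ℤ) ^ 2 + -(K : ℤ)).natAbs = Pool.Agent.TH892.SW.vn K n := by
      intro n
      unfold Pool.Agent.TH892.SW.vn
      rw [← sub_eq_add_neg]
    have habs : ∀ n : ℕ, |(n : ℤ) ^ 2 + -(K : ℤ)| = (Pool.Agent.TH892.SW.vn K n : ℤ) := by
      intro n
      rw [← hv n, Int.abs_eq_natAbs]
    have hP : ∀ m N : ℕ, P (-(K : ℤ)) m N = ((Ioc m N).filter (fun i => (Pool.Agent.TH892.SW.vn K i).Prime)).card := by
      intro m N
      unfold P
      simp_rw [hv]
    have hM : ∀ m N : ℕ, M (-(K : ℤ)) m N = ∑ i ∈ Ioc m N, Pool.Agent.TH892.SW.wt (Pool.Agent.TH892.SW.vn K i) := by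
      intro m N
      unfold M Pool.Agent.TH892.SW.wt
      simp_rw [habs]
      simp only [Int.cast_natCast]
    refine ⟨?_, ?_, h, hh, ?_, ?_⟩
    · rintro ⟨r, hr⟩
      have h1 := hvn r.natAbs
      have h2 : Pool.Agent.TH892.SW.vn K r.natAbs = 0 := by
        rw [← hv]
        have h3 : (r.natAbs : ℤ) ^ 2 = (K : ℤ) := by
          rw [Int.natAbs_sq, sq, ← hr, neg_neg]
        rw [h3, add_neg_cancel]
        rfl
      omega
    · intro n
      rw [habs]
      exact_mod_cast hvn n
    · have e : (fun z : ℕ => hcut (-(K : ℤ)) z) = fun z => Pool.Agent.TH892.SW.HP K z := by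
        funext z
        unfold hcut Pool.Agent.TH892.SW.HP
        rw [neg_neg]
      rw [e]
      exact hlim
    · intro m N hmN hN hmK
      rw [hP, hM]
      apply hwin m N hmN hN
      have e : √(-((-(K : ℤ) : ℤ) : ℝ)) = √(K : ℝ) := by
        congr 1
        push_cast
        ring
      rw [← e]
      exact hmK

end Pool.Agent.Results.MP_391708_nt.WindowsNearSquareRoot
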